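import Mathlib

set_option autoImplicit false
set_option maxHeartbeats 1000000

namespace Pool.Agent.Helper55.LS

open Finset
open scoped Matroid

variable {E : Type} [Fintype E] [DecidableEq E]

omit [Fintype E] in
/-- extension inside `A` -/
theorem ext_in (M : Matroid E) {I J A : Finset E} (hI : M.Indep (I : Set E)) (hIA : I ⊆ A)
    (hJ : M.Indep (J : Set E)) (hJA : J ⊆ A) :
    ∃ K : Finset E, I ⊆ K ∧ K ⊆ A ∧ M.Indep (K : Set E) ∧ J.card ≤ K.card ∧
      ∀ J' : Finset E, J' ⊆ A → M.Indep (J' : Set E) → J'.card ≤ K.card := by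
  classical
  obtain ⟨K, hK, hKmax⟩ := Finset.exists_max_image
    (A.powerset.filter (fun K => I ⊆ K ∧ M.Indep (K : Set E))) Finset.card
    ⟨I, by simp [hIA, hI]⟩
  rw [mem_filter, mem_powerset] at hK
  obtain ⟨hKA, hIK, hKi⟩ := hK
  have key : ∀ J' : Finset E, J' ⊆ A → M.Indep (J' : Set E) → J'.card ≤ K.card := by
    intro J' hJ'A hJ'
    by_contra hlt
    push Not at hlt
    obtain ⟨e, he, heK, hins⟩ := hKi.augment_finset hJ' hlt
    have h1 : insert e K ∈ A.powerset.filter (fun K => I ⊆ K ∧ M.Indep (K : Set E)) := by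
      rw [mem_filter, mem_powerset]
      refine ⟨insert_subset (hJ'A he) hKA, hIK.trans (subset_insert _ _), ?_⟩
      rw [coe_insert]
      exact hins
    have h2 := hKmax _ h1
    rw [card_insert_of_notMem heK] at h2
    omega
  exact ⟨K, hIK, hKA, hKi, key J hJA hJ, key⟩

/-- common independent -/
def CI {k : ℕ} (M : Fin k → Matroid E) (B : Finset E) : Prop := ∀ i, (M i).Indep (B : Set E)

/-- `S` gives an improvement of `B` of size at most `s`. -/
def Imp {k : ℕ} (M : Fin k → Matroid E) (s : ℕ) (B S : Finset E) : Prop :=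
  ∃ X ⊆ S \ B, X.card ≤ s ∧ ∃ B' ⊆ B ∪ X, CI M B' ∧ B.card < B'.card

omit [Fintype E] in
/-- the step of the recursion -/
theorem step {k : ℕ} (hk : 2 ≤ k) {β : ℝ} (hβ : 1 ≤ β) {s : ℕ}
    (IH : ∀ (M : Fin k → Matroid E) (B S : Finset E), CI M B → CI M S →
      β * B.card < S.card → Imp M s B S) (M : Fin k → Matroid E) (B S : Finset E)
    (hB : CI M B) (hS : CI M S) (hlt : ((k + 1) * β - k) / (2 * β - 1) * B.card < S.card) :
    Imp M ((2 * k + 1) * s + 2) B S := by
  classical
  by_contra hno
  have hK := fun l => ext_in (M l) (hB l) (subset_union_left : B ⊆ B ∪ S) (hS l)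
    (subset_union_right : S ⊆ B ∪ S)
  choose K hBK hKA hKi hKS hKmax using hK
  -- a single element
  have hone : ∀ e ∈ S \ B, ∃ l, e ∉ K l := by
    intro e he
    by_contra hcon
    push Not at hcon
    apply hno
    refine ⟨{e}, singleton_subset_iff.2 he, by simp, insert e B, ?_, ?_, ?_⟩
    · intro x hx
      rw [mem_insert] at hx
      rw [mem_union, mem_singleton]
      tauto
    · intro l
      exact (hKi l).subset (by
        rw [coe_subset]
        exact insert_subset (hcon l) (hBK l))
    · rw [card_insert_of_notMem (mem_sdiff.1 he).2]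
      omega
  obtain ⟨F, hF⟩ : ∃ F : Fin k → Finset E, ∀ l, F l =
      (S \ B).filter (fun e => e ∉ K l ∧ ∀ m, m ≠ l → e ∈ K m) := ⟨_, fun _ => rfl⟩
  have hFm : ∀ l e, e ∈ F l ↔ e ∈ S ∧ e ∉ B ∧ e ∉ K l ∧ ∀ m, m ≠ l → e ∈ K m := by
    intro l e
    rw [hF, mem_filter, mem_sdiff]
    tauto
  obtain ⟨FF, hFF⟩ : ∃ FF : Finset E, FF = univ.biUnion F := ⟨_, rfl⟩
  have hFFm : ∀ e, e ∈ FF ↔ ∃ l, e ∈ F l := by
    intro e
    rw [hFF]
    simp
  have hFFS : FF ⊆ S \ B := by
    intro e he
    obtain ⟨l, hl⟩ := (hFFm e).1 he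
    rw [hFm] at hl
    exact mem_sdiff.2 ⟨hl.1, hl.2.1⟩
  have hFdisj : ∀ l m, l ≠ m → Disjoint (F l) (F m) := by
    intro l m hlm
    rw [disjoint_left]
    intro e he he'
    rw [hFm] at he he'
    exact he.2.2.1 (he'.2.2.2 l hlm)
  -- the sets `Y l`
  have hP := fun l => ext_in (M l) (I := (K l \ B) ∪ F l ∪ (B ∩ S)) (A := K l ∪ F l) (J := K l)
    ((hS l).subset (by
      rw [coe_subset]
      intro e he
      rw [mem_union, mem_union] at he
      rcases he with (he | he) | he
      · rw [mem_sdiff] at he
        rcases mem_union.1 (hKA l he.1) with h | h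
        · exact absurd h he.2
        · exact h
      · exact ((hFm l e).1 he).1
      · exact (mem_inter.1 he).2))
    (by
      intro e he
      rw [mem_union, mem_union] at he
      rw [mem_union]
      rcases he with (he | he) | he
      · exact Or.inl (mem_sdiff.1 he).1
      · exact Or.inr he
      · exact Or.inl (hBK l (mem_inter.1 he).1))
    (hKi l) subset_union_left
  choose P hIP hPA hPi hPK hPmax using hP
  have hPcard : ∀ l, (P l).card = (K l).card := by
    intro l
    refine le_antisymm (hKmax l (P l) ?_ (hPi l)) (hPK l)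
    intro e he
    rcases mem_union.1 (hPA l he) with h | h
    · exact hKA l h
    · exact mem_union_right _ ((hFm l e).1 h).1
  obtain ⟨Y, hY⟩ : ∃ Y : Fin k → Finset E, ∀ l, Y l = B \ P l := ⟨_, fun _ => rfl⟩
  have hYm : ∀ l e, e ∈ Y l ↔ e ∈ B ∧ e ∉ P l := fun l e => by rw [hY, mem_sdiff]
  have hYS : ∀ l e, e ∈ Y l → e ∉ S := by
    intro l e he heS
    rw [hYm] at he
    exact he.2 (hIP l (mem_union_right _ (mem_inter.2 ⟨he.1, heS⟩)))
  have hYcard : ∀ l, (Y l).card = (F l).card := by
    intro l
    -- `P l = (B \ Y l) ∪ (K l \ B) ∪ F l`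
    have h1 : P l = (B \ Y l) ∪ ((K l \ B) ∪ F l) := by
      ext e
      constructor
      · intro he
        by_cases heB : e ∈ B
        · refine mem_union_left _ (mem_sdiff.2 ⟨heB, fun h => ((hYm l e).1 h).2 he⟩)
        · refine mem_union_right _ ?_
          rcases mem_union.1 (hPA l he) with h | h
          · exact mem_union_left _ (mem_sdiff.2 ⟨h, heB⟩)
          · exact mem_union_right _ h
      · intro he
        rcases mem_union.1 he with h | h
        · rw [mem_sdiff] at h
          by_contra hcon
          exact h.2 ((hYm l e).2 ⟨h.1, hcon⟩)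
        · exact hIP l (mem_union_left _ h)
    have h2 : Disjoint (B \ Y l) ((K l \ B) ∪ F l) := by
      rw [disjoint_left]
      intro e he he'
      have heB := (mem_sdiff.1 he).1
      rcases mem_union.1 he' with h | h
      · exact (mem_sdiff.1 h).2 heB
      · exact ((hFm l e).1 h).2.1 heB
    have h3 : Disjoint (K l \ B) (F l) := by
      rw [disjoint_left]
      intro e he he'
      exact ((hFm l e).1 he').2.2.1 (mem_sdiff.1 he).1
    have h4 := congrArg Finset.card h1
    rw [card_union_of_disjoint h2, card_union_of_disjoint h3, hPcard l] at h4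
    have h5 : (B \ Y l).card + (Y l).card = B.card := by
      have := card_sdiff_add_card_inter B (Y l)
      have h6 : B ∩ Y l = Y l := inter_eq_right.2 (fun e he => ((hYm l e).1 he).1)
      rw [h6] at this
      exact this
    have h7 : (K l \ B).card + B.card = (K l).card := by
      have := card_sdiff_add_card_inter (K l) B
      have h6 : K l ∩ B = B := inter_eq_right.2 (hBK l)
      rw [h6] at this
      exact this
    omega
  -- the sets `Y l` are disjoint
  have hYdisj : ∀ l m, l ≠ m → Disjoint (Y l) (Y m) := by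
    intro l m hlm
    rw [disjoint_left]
    intro y hyl hym
    have hex : ∀ l, y ∈ Y l → ∃ e ∈ F l, (M l).Indep ((insert e ((K l).erase y) : Finset E) : Set E) := by
      intro l hy
      rw [hYm] at hy
      have hyK : y ∈ K l := hBK l hy.1
      have h1 : ((K l).erase y).card < (P l).card := by
        rw [card_erase_of_mem hyK, hPcard l]
        have : 0 < (K l).card := card_pos.2 ⟨y, hyK⟩
        omega
      obtain ⟨e, he, heK, hins⟩ := ((hKi l).subset (by
        rw [coe_subset]
        exact erase_subset _ _)).augment_finset (hPi l) h1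
      refine ⟨e, ?_, by rw [coe_insert]; exact hins⟩
      rcases mem_union.1 (hPA l he) with h | h
      · exfalso
        rw [mem_erase] at heK
        push Not at heK
        by_cases hey : e = y
        · rw [hey] at he
          exact hy.2 he
        · exact heK hey h
      · exact h
    obtain ⟨e, he, hei⟩ := hex l hyl
    obtain ⟨e', he', hei'⟩ := hex m hym
    have hyB : y ∈ B := ((hYm l y).1 hyl).1
    have h1 := (hFm l e).1 he
    have h2 := (hFm m e').1 he'
    have hne : e ≠ e' := by
      rintro rfl
      exact h1.2.2.1 (h2.2.2.2 l hlm)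
    have hney : e ≠ y := fun h => h1.2.1 (h ▸ hyB)
    have hney' : e' ≠ y := fun h => h2.2.1 (h ▸ hyB)
    apply hno
    refine ⟨{e, e'}, ?_, ?_, insert e (insert e' (B.erase y)), ?_, ?_, ?_⟩
    · intro x hx
      rw [mem_insert, mem_singleton] at hx
      rcases hx with rfl | rfl
      · exact mem_sdiff.2 ⟨h1.1, h1.2.1⟩
      · exact mem_sdiff.2 ⟨h2.1, h2.2.1⟩
    · have := card_le_two (a := e) (b := e')
      omega
    · intro x hx
      rw [mem_insert, mem_insert, mem_erase] at hx
      rw [mem_union, mem_insert, mem_singleton]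
      tauto
    · intro j
      by_cases hjl : j = l
      · subst hjl
        refine hei.subset ?_
        rw [coe_subset]
        intro x hx
        rw [mem_insert, mem_insert, mem_erase] at hx
        rw [mem_insert, mem_erase]
        rcases hx with rfl | rfl | hx
        · exact Or.inl rfl
        · exact Or.inr ⟨hney', h2.2.2.2 j hlm⟩
        · exact Or.inr ⟨hx.1, hBK j hx.2⟩
      · by_cases hjm : j = m
        · subst hjm
          refine hei'.subset ?_
          rw [coe_subset]
          intro x hx
          rw [mem_insert, mem_insert, mem_erase] at hx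
          rw [mem_insert, mem_erase]
          rcases hx with rfl | rfl | hx
          · exact Or.inr ⟨hney, h1.2.2.2 j hjl⟩
          · exact Or.inl rfl
          · exact Or.inr ⟨hx.1, hBK j hx.2⟩
        · refine (hKi j).subset ?_
          rw [coe_subset]
          intro x hx
          rw [mem_insert, mem_insert, mem_erase] at hx
          rcases hx with rfl | rfl | hx
          · exact h1.2.2.2 j hjl
          · exact h2.2.2.2 j hjm
          · exact hBK j hx.2
    · have h3 : e' ∉ B.erase y := fun h => h2.2.1 (mem_of_mem_erase h)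
      have h4 : e ∉ insert e' (B.erase y) := by
        rw [mem_insert]
        push Not
        exact ⟨hne, fun h => h1.2.1 (mem_of_mem_erase h)⟩
      rw [card_insert_of_notMem h4, card_insert_of_notMem h3, card_erase_of_mem hyB]
      have : 0 < B.card := card_pos.2 ⟨y, hyB⟩
      omega
  obtain ⟨YY, hYY⟩ : ∃ YY : Finset E, YY = univ.biUnion Y := ⟨_, rfl⟩
  have hYYm : ∀ e, e ∈ YY ↔ ∃ l, e ∈ Y l := by
    intro e
    rw [hYY]
    simp
  have hYYB : YY ⊆ B := by
    intro e he
    obtain ⟨l, hl⟩ := (hYYm e).1 he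
    exact ((hYm l e).1 hl).1
  have hYYcard : YY.card = FF.card := by
    rw [hYY, hFF, card_biUnion (fun l _ m _ h => hYdisj l m h),
      card_biUnion (fun l _ m _ h => hFdisj l m h)]
    exact sum_congr rfl fun l _ => hYcard l
  -- elements of `FF`
  have hFFK : ∀ l e, e ∈ FF → e ∉ F l → e ∈ K l := by
    intro l e he hel
    obtain ⟨m, hm⟩ := (hFFm e).1 he
    by_cases hlm : l = m
    · exact absurd (hlm ▸ hm) hel
    · exact ((hFm m e).1 hm).2.2.2 l hlm
  -- the counting
  have hcount : 2 * (S \ B).card ≤ FF.card + k * (B \ S).card := by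
    have h1 : ∀ l, ((S \ B) \ K l).card ≤ (B \ S).card := by
      intro l
      have h2 := card_sdiff_add_card_inter (S \ B) (K l)
      have h3 : (K l).card = B.card + ((S \ B) ∩ K l).card := by
        have h4 : K l = B ∪ ((S \ B) ∩ K l) := by
          ext e
          rw [mem_union, mem_inter, mem_sdiff]
          constructor
          · intro he
            by_cases heB : e ∈ B
            · exact Or.inl heB
            · rcases mem_union.1 (hKA l he) with h | h
              · exact Or.inl h
              · exact Or.inr ⟨⟨h, heB⟩, he⟩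
          · rintro (he | he)
            · exact hBK l he
            · exact he.2
        have h5 : Disjoint B ((S \ B) ∩ K l) := by
          rw [disjoint_left]
          intro e he he'
          exact (mem_sdiff.1 (mem_inter.1 he').1).2 he
        have h6 := congrArg Finset.card h4
        rw [card_union_of_disjoint h5] at h6
        exact h6
      have h7 := hKS l
      have h8 := card_sdiff_add_card_inter S B
      have h9 := card_sdiff_add_card_inter B S
      rw [inter_comm] at h9
      omega
    have h2 : ∑ l : Fin k, ((S \ B) \ K l).card =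
        ∑ e ∈ S \ B, (univ.filter (fun l => e ∉ K l)).card := by
      have h3 : ∀ l, ((S \ B) \ K l).card = ∑ e ∈ S \ B, if e ∉ K l then 1 else 0 := by
        intro l
        rw [← card_filter]
        congr 1
        ext e
        rw [mem_sdiff, mem_filter]
      rw [sum_congr rfl fun l _ => h3 l, sum_comm]
      exact sum_congr rfl fun e _ => by rw [card_filter]
    have h3 : ∀ e ∈ S \ B, 2 ≤ (univ.filter (fun l => e ∉ K l)).card + if e ∈ FF then 1 else 0 := by
      intro e he
      obtain ⟨l, hl⟩ := hone e he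
      have h4 : 0 < (univ.filter (fun l => e ∉ K l)).card :=
        card_pos.2 ⟨l, mem_filter.2 ⟨mem_univ l, hl⟩⟩
      by_cases h5 : (univ.filter (fun l => e ∉ K l)).card = 1
      · have h6 : e ∈ FF := by
          rw [hFFm]
          refine ⟨l, ?_⟩
          rw [hFm]
          refine ⟨(mem_sdiff.1 he).1, (mem_sdiff.1 he).2, hl, ?_⟩
          intro m hm
          by_contra hcon
          obtain ⟨a, ha⟩ := card_eq_one.1 h5
          have h7 : l ∈ univ.filter (fun l => e ∉ K l) := mem_filter.2 ⟨mem_univ l, hl⟩
          have h8 : m ∈ univ.filter (fun l => e ∉ K l) := mem_filter.2 ⟨mem_univ m, hcon⟩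
          rw [ha, mem_singleton] at h7 h8
          exact hm (h8.trans h7.symm)
        rw [if_pos h6]
        omega
      · omega
    have h4 : ∑ e ∈ S \ B, 2 ≤ ∑ e ∈ S \ B,
        ((univ.filter (fun l => e ∉ K l)).card + if e ∈ FF then 1 else 0) := sum_le_sum h3
    rw [sum_const, smul_eq_mul, sum_add_distrib, ← h2, ← card_filter] at h4
    have h5 : ((S \ B).filter (fun e => e ∈ FF)).card ≤ FF.card :=
      card_le_card fun e he => (mem_filter.1 he).2
    have h6 : ∑ l : Fin k, ((S \ B) \ K l).card ≤ k * (B \ S).card := by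
      calc ∑ l : Fin k, ((S \ B) \ K l).card ≤ ∑ _l : Fin k, (B \ S).card :=
            sum_le_sum fun l _ => h1 l
        _ = k * (B \ S).card := by rw [sum_const, card_univ, Fintype.card_fin, smul_eq_mul]
    omega
  -- the smaller pair
  have hFi : ∀ l, (M l).Indep (FF : Set E) := fun l => (hS l).subset (by
    rw [coe_subset]
    exact fun e he => (mem_sdiff.1 (hFFS he)).1)
  have hciff : ∀ (l : Fin k) (J : Finset E), ((M l) ／ (FF : Set E)).Indep (J : Set E) ↔
      Disjoint J FF ∧ (M l).Indep ((J ∪ FF : Finset E) : Set E) := by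
    intro l J
    rw [(hFi l).contract_indep_iff, disjoint_coe, coe_union]
  obtain ⟨B1, hB1⟩ : ∃ B1 : Finset E, B1 = B \ YY := ⟨_, rfl⟩
  obtain ⟨S1, hS1⟩ : ∃ S1 : Finset E, S1 = S \ FF := ⟨_, rfl⟩
  have hFP : ∀ l e, e ∈ FF → e ∈ P l := by
    intro l e he
    by_cases hel : e ∈ F l
    · exact hIP l (mem_union_left _ (mem_union_right _ hel))
    · exact hIP l (mem_union_left _ (mem_union_left _
        (mem_sdiff.2 ⟨hFFK l e he hel, (mem_sdiff.1 (hFFS he)).2⟩)))
  have hBP : ∀ l e, e ∈ B → e ∉ Y l → e ∈ P l := by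
    intro l e he hel
    by_contra hcon
    exact hel ((hYm l e).2 ⟨he, hcon⟩)
  have hCIB : CI (fun l => (M l) ／ (FF : Set E)) B1 := by
    intro l
    show ((M l) ／ (FF : Set E)).Indep (B1 : Set E)
    rw [hciff]
    constructor
    · rw [disjoint_left]
      intro e he he'
      rw [hB1] at he
      exact (mem_sdiff.1 (hFFS he')).2 (mem_sdiff.1 he).1
    · refine (hPi l).subset ?_
      rw [coe_subset]
      intro e he
      rcases mem_union.1 he with h | h
      · rw [hB1, mem_sdiff] at h
        exact hBP l e h.1 (fun h' => h.2 ((hYYm e).2 ⟨l, h'⟩))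
      · exact hFP l e h
  have hCIS : CI (fun l => (M l) ／ (FF : Set E)) S1 := by
    intro l
    show ((M l) ／ (FF : Set E)).Indep (S1 : Set E)
    rw [hciff]
    constructor
    · rw [hS1]
      exact sdiff_disjoint
    · refine (hS l).subset ?_
      rw [coe_subset, hS1]
      intro e he
      rcases mem_union.1 he with h | h
      · exact (mem_sdiff.1 h).1
      · exact (mem_sdiff.1 (hFFS h)).1
  have hB1card : B1.card + YY.card = B.card := by
    rw [hB1]
    have := card_sdiff_add_card_inter B YY
    rw [inter_eq_right.2 hYYB] at this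
    exact this
  have hS1card : S1.card + FF.card = S.card := by
    rw [hS1]
    have := card_sdiff_add_card_inter S FF
    rw [inter_eq_right.2 (fun e he => (mem_sdiff.1 (hFFS he)).1)] at this
    exact this
  by_cases hsm : β * B1.card < S1.card
  swap
  · -- the numbers
    push Not at hsm
    have hkR : (2 : ℝ) ≤ k := by exact_mod_cast hk
    have h1 : (B1.card : ℝ) + FF.card = B.card := by
      rw [← hYYcard]
      exact_mod_cast hB1card
    have h2 : (S1.card : ℝ) + FF.card = S.card := by exact_mod_cast hS1card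
    have h3 : 2 * ((S \ B).card : ℝ) ≤ FF.card + k * ((B \ S).card : ℝ) := by
      exact_mod_cast hcount
    have h4 : ((S \ B).card : ℝ) + (S ∩ B).card = S.card := by
      exact_mod_cast card_sdiff_add_card_inter S B
    have h5 : ((B \ S).card : ℝ) + (S ∩ B).card = B.card := by
      rw [inter_comm]
      exact_mod_cast card_sdiff_add_card_inter B S
    have h6 : (0 : ℝ) ≤ ((S ∩ B).card : ℝ) := Nat.cast_nonneg _
    have h7 : 2 * (S.card : ℝ) ≤ FF.card + k * (B.card : ℝ) := by nlinarith
    have h8 : (S.card : ℝ) - FF.card ≤ β * (B.card - FF.card) := by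
      have : β * ((B.card : ℝ) - FF.card) = β * B1.card := by rw [← h1]; ring
      rw [this]
      linarith
    have h9 : (2 * β - 1) * (S.card : ℝ) ≤ ((k + 1) * β - k) * B.card := by nlinarith
    have h10 : 0 < 2 * β - 1 := by linarith
    rw [div_mul_eq_mul_div, div_lt_iff₀ h10] at hlt
    linarith
  obtain ⟨X0, hX0, hX0s, B', hB'X, hCI', hcard'⟩ := IH _ B1 S1 hCIB hCIS hsm
  obtain ⟨X, hX⟩ : ∃ X : Finset E, X = B' \ B1 := ⟨_, rfl⟩
  have hXX0 : X ⊆ X0 := by
    intro e he
    rw [hX, mem_sdiff] at he
    rcases mem_union.1 (hB'X he.1) with h | h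
    · exact absurd h he.2
    · exact h
  have hXS : ∀ e ∈ X, e ∈ S ∧ e ∉ FF := by
    intro e he
    have h1 := hX0 (hXX0 he)
    rw [hS1, mem_sdiff, mem_sdiff] at h1
    exact h1.1
  have hXB : ∀ e ∈ X, e ∉ B := by
    intro e he heB
    have h1 := hX0 (hXX0 he)
    rw [mem_sdiff, hB1, mem_sdiff] at h1
    apply h1.2
    refine ⟨heB, fun h => ?_⟩
    obtain ⟨l, hl⟩ := (hYYm e).1 h
    exact hYS l e hl (hXS e he).1
  have hXs : X.card ≤ s := (card_le_card hXX0).trans hX0s
  -- elements of `B'`
  have hB'm : ∀ e ∈ B', (e ∈ B ∧ e ∉ YY) ∨ e ∈ X := by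
    intro e he
    by_cases h : e ∈ B1
    · rw [hB1, mem_sdiff] at h
      exact Or.inl h
    · exact Or.inr (by rw [hX]; exact mem_sdiff.2 ⟨he, h⟩)
  have hB'Y : Disjoint B' YY := by
    rw [disjoint_left]
    intro e he he'
    rcases hB'm e he with h | h
    · exact h.2 he'
    · exact hXB e h (hYYB he')
  have hB'F : Disjoint B' FF := by
    rw [disjoint_left]
    intro e he he'
    rcases hB'm e he with h | h
    · exact (mem_sdiff.1 (hFFS he')).2 h.1
    · exact (hXS e h).2 he'
  have hYF : Disjoint YY FF := by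
    rw [disjoint_left]
    intro e he he'
    exact (mem_sdiff.1 (hFFS he')).2 (hYYB he)
  have hB'i : ∀ l, (M l).Indep ((B' ∪ FF : Finset E) : Set E) := fun l =>
    ((hciff l B').1 (hCI' l)).2
  -- the kept part of `B` outside `Y`
  obtain ⟨C, hC⟩ : ∃ C : Finset E, C = B1 ∩ B' := ⟨_, rfl⟩
  have hCB' : C ⊆ B' := by rw [hC]; exact inter_subset_right
  have hCcard : C.card + X.card = B'.card := by
    rw [hC, hX, inter_comm]
    have := card_sdiff_add_card_inter B' B1
    omega
  have hCB : ∀ e ∈ C, e ∈ B ∧ e ∉ YY := by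
    intro e he
    rw [hC, hB1, mem_inter, mem_sdiff] at he
    exact he.1
  have hCY : Disjoint C YY := by
    rw [disjoint_left]
    intro e he he'
    exact (hCB e he).2 he'
  -- (i)
  have hT := fun l => ext_in (M l) (I := B' ∪ (FF \ F l)) (A := B' ∪ (FF \ F l) ∪ YY)
    (J := C ∪ YY ∪ (FF \ F l))
    ((hB'i l).subset (by
      rw [coe_subset]
      exact union_subset_union_right sdiff_subset))
    subset_union_left
    ((hKi l).subset (by
      rw [coe_subset]
      intro e he
      rcases mem_union.1 he with h | h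
      · rcases mem_union.1 h with h | h
        · exact hBK l (hCB e h).1
        · exact hBK l (hYYB h)
      · rw [mem_sdiff] at h
        exact hFFK l e h.1 h.2))
    (by
      intro e he
      rcases mem_union.1 he with h | h
      · rcases mem_union.1 h with h | h
        · exact mem_union_left _ (mem_union_left _ (hCB' h))
        · exact mem_union_right _ h
      · exact mem_union_left _ (mem_union_right _ h))
  choose T hIT hTA hTi hJT hTmax using hT
  have hR1 : ∀ l, (YY \ T l).card ≤ X.card := by
    intro l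
    have h1 : T l ⊆ (B' ∪ (FF \ F l)) ∪ (YY ∩ T l) := by
      intro e he
      rcases mem_union.1 (hTA l he) with h | h
      · exact mem_union_left _ h
      · exact mem_union_right _ (mem_inter.2 ⟨h, he⟩)
    have h2 := (card_le_card h1).trans (card_union_le _ _)
    have h3 := card_union_le B' (FF \ F l)
    have h4 : (C ∪ YY ∪ (FF \ F l)).card = C.card + YY.card + (FF \ F l).card := by
      rw [card_union_of_disjoint, card_union_of_disjoint hCY]
      rw [disjoint_left]
      intro e he he'
      have h5 := (mem_sdiff.1 (hFFS (mem_sdiff.1 he').1)).2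
      rcases mem_union.1 he with h | h
      · exact h5 (hCB e h).1
      · exact h5 (hYYB h)
    have h5 := hJT l
    have h6 := card_sdiff_add_card_inter YY (T l)
    omega
  -- (ii)
  have hT' := fun l => ext_in (M l) (I := B' ∪ FF) (A := B' ∪ FF ∪ (YY \ Y l))
    (J := C ∪ (YY \ Y l) ∪ FF) (hB'i l) subset_union_left
    ((hPi l).subset (by
      rw [coe_subset]
      intro e he
      rcases mem_union.1 he with h | h
      · rcases mem_union.1 h with h | h
        · exact hBP l e (hCB e h).1 (fun h' => (hCB e h).2 ((hYYm e).2 ⟨l, h'⟩))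
        · rw [mem_sdiff] at h
          exact hBP l e (hYYB h.1) h.2
      · exact hFP l e h))
    (by
      intro e he
      rcases mem_union.1 he with h | h
      · rcases mem_union.1 h with h | h
        · exact mem_union_left _ (mem_union_left _ (hCB' h))
        · exact mem_union_right _ h
      · exact mem_union_left _ (mem_union_right _ h))
  choose T' hIT' hTA' hTi' hJT' hTmax' using hT'
  have hR2 : ∀ l, ((YY \ Y l) \ T' l).card ≤ X.card := by
    intro l
    have h1 : T' l ⊆ (B' ∪ FF) ∪ ((YY \ Y l) ∩ T' l) := by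
      intro e he
      rcases mem_union.1 (hTA' l he) with h | h
      · exact mem_union_left _ h
      · exact mem_union_right _ (mem_inter.2 ⟨h, he⟩)
    have h2 := (card_le_card h1).trans (card_union_le _ _)
    have h3 := card_union_le B' FF
    have h4 : (C ∪ (YY \ Y l) ∪ FF).card = C.card + (YY \ Y l).card + FF.card := by
      rw [card_union_of_disjoint, card_union_of_disjoint]
      · rw [disjoint_left]
        intro e he he'
        exact (hCB e he).2 (mem_sdiff.1 he').1
      · rw [disjoint_left]
        intro e he he'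
        have h5 := (mem_sdiff.1 (hFFS he')).2
        rcases mem_union.1 he with h | h
        · exact h5 (hCB e h).1
        · exact h5 (hYYB (mem_sdiff.1 h).1)
    have h5 := hJT' l
    have h6 := card_sdiff_add_card_inter (YY \ Y l) (T' l)
    omega
  obtain ⟨Z, hZ⟩ : ∃ Z : Finset E, Z = univ.biUnion (fun l => (YY \ T l) ∪ ((YY \ Y l) \ T' l)) :=
    ⟨_, rfl⟩
  have hZm : ∀ e, e ∈ Z ↔ ∃ l, e ∈ YY ∧ (e ∉ T l ∨ (e ∉ Y l ∧ e ∉ T' l)) := by
    intro e
    rw [hZ, mem_biUnion]
    constructor
    · rintro ⟨l, -, hl⟩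
      rw [mem_union, mem_sdiff, mem_sdiff, mem_sdiff] at hl
      exact ⟨l, by tauto⟩
    · rintro ⟨l, hl⟩
      refine ⟨l, mem_univ l, ?_⟩
      rw [mem_union, mem_sdiff, mem_sdiff, mem_sdiff]
      tauto
  have hZY : Z ⊆ YY := by
    intro e he
    obtain ⟨l, hl, -⟩ := (hZm e).1 he
    exact hl
  have hZcard : Z.card ≤ 2 * k * X.card := by
    rw [hZ]
    refine card_biUnion_le.trans ?_
    calc ∑ l : Fin k, ((YY \ T l) ∪ ((YY \ Y l) \ T' l)).card
        ≤ ∑ _l : Fin k, (2 * X.card) := by
          refine sum_le_sum fun l _ => (card_union_le _ _).trans ?_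
          have h1 := hR1 l
          have h2 := hR2 l
          omega
      _ = 2 * k * X.card := by
          rw [sum_const, card_univ, Fintype.card_fin, smul_eq_mul]
          ring
  -- the pieces of `F l`
  have hG : ∀ l, ∃ G : Finset E, G ⊆ F l ∧ G.card = (Z ∩ Y l).card ∧
      (M l).Indep ((B' ∪ (YY \ Z) ∪ (FF \ F l) ∪ G : Finset E) : Set E) := by
    intro l
    have hQi : (M l).Indep ((B' ∪ (YY \ Z) ∪ (FF \ F l) : Finset E) : Set E) := by
      refine (hTi l).subset ?_
      rw [coe_subset]
      intro e he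
      rcases mem_union.1 he with h | h
      · rcases mem_union.1 h with h | h
        · exact hIT l (mem_union_left _ h)
        · rw [mem_sdiff] at h
          by_contra hcon
          exact h.2 ((hZm e).2 ⟨l, h.1, Or.inl hcon⟩)
      · exact hIT l (mem_union_right _ h)
    have hZi : (M l).Indep ((B' ∪ ((YY \ Y l) \ Z) ∪ FF : Finset E) : Set E) := by
      refine (hTi' l).subset ?_
      rw [coe_subset]
      intro e he
      rcases mem_union.1 he with h | h
      · rcases mem_union.1 h with h | h
        · exact hIT' l (mem_union_left _ h)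
        · rw [mem_sdiff, mem_sdiff] at h
          by_contra hcon
          exact h.2 ((hZm e).2 ⟨l, h.1.1, Or.inr ⟨h.1.2, hcon⟩⟩)
      · exact hIT' l (mem_union_right _ h)
    obtain ⟨G0, hG0Q, hG0A, hG0i, hG0c, -⟩ := ext_in (M l) (I := B' ∪ (YY \ Z) ∪ (FF \ F l))
      (A := B' ∪ (YY \ Z) ∪ (FF \ F l) ∪ F l) (J := B' ∪ ((YY \ Y l) \ Z) ∪ FF) hQi
      subset_union_left hZi (by
        intro e he
        rcases mem_union.1 he with h | h
        · rcases mem_union.1 h with h | h
          · exact mem_union_left _ (mem_union_left _ (mem_union_left _ h))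
          · rw [mem_sdiff, mem_sdiff] at h
            exact mem_union_left _ (mem_union_left _ (mem_union_right _
              (mem_sdiff.2 ⟨h.1.1, h.2⟩)))
        · by_cases hel : e ∈ F l
          · exact mem_union_right _ hel
          · exact mem_union_left _ (mem_union_right _ (mem_sdiff.2 ⟨h, hel⟩)))
    have hFlFF : F l ⊆ FF := fun e he => (hFFm e).2 ⟨l, he⟩
    have hYlYY : Y l ⊆ YY := fun e he => (hYYm e).2 ⟨l, he⟩
    -- cardinalities
    have h1 : (B' ∪ ((YY \ Y l) \ Z) ∪ FF).card = B'.card + ((YY \ Y l) \ Z).card + FF.card := by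
      rw [card_union_of_disjoint, card_union_of_disjoint]
      · exact hB'Y.mono_right (fun e he => (mem_sdiff.1 (mem_sdiff.1 he).1).1)
      · rw [disjoint_union_left]
        exact ⟨hB'F, hYF.mono_left (fun e he => (mem_sdiff.1 (mem_sdiff.1 he).1).1)⟩
    have h2 : (B' ∪ (YY \ Z) ∪ (FF \ F l)).card = B'.card + (YY \ Z).card + (FF \ F l).card := by
      rw [card_union_of_disjoint, card_union_of_disjoint]
      · exact hB'Y.mono_right sdiff_subset
      · rw [disjoint_union_left]
        exact ⟨hB'F.mono_right sdiff_subset,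
          (hYF.mono_left sdiff_subset).mono_right sdiff_subset⟩
    have h3 : G0 ⊆ (B' ∪ (YY \ Z) ∪ (FF \ F l)) ∪ (F l ∩ G0) := by
      intro e he
      rcases mem_union.1 (hG0A he) with h | h
      · exact mem_union_left _ h
      · exact mem_union_right _ (mem_inter.2 ⟨h, he⟩)
    have h4 := (card_le_card h3).trans (card_union_le _ _)
    have h5 : (FF \ F l).card + (F l).card = FF.card := by
      have := card_sdiff_add_card_inter FF (F l)
      rwa [inter_eq_right.2 hFlFF] at this
    have h6 : (YY \ Z).card + Z.card = YY.card := by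
      have := card_sdiff_add_card_inter YY Z
      rwa [inter_eq_right.2 hZY] at this
    have h7 : (YY \ Y l).card + (Y l).card = YY.card := by
      have := card_sdiff_add_card_inter YY (Y l)
      rwa [inter_eq_right.2 hYlYY] at this
    have h8 : ((YY \ Y l) \ Z).card + (Z \ Y l).card = (YY \ Y l).card := by
      have := card_sdiff_add_card_inter (YY \ Y l) Z
      have h9 : (YY \ Y l) ∩ Z = Z \ Y l := by
        ext e
        rw [mem_inter, mem_sdiff, mem_sdiff]
        constructor
        · rintro ⟨h, h'⟩
          exact ⟨h', h.2⟩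
        · rintro ⟨h, h'⟩
          exact ⟨⟨hZY h, h'⟩, h⟩
      rwa [h9] at this
    have h9 := card_sdiff_add_card_inter Z (Y l)
    have h10 : (Y l).card = (F l).card := hYcard l
    have h11 : (Z ∩ Y l).card ≤ (F l ∩ G0).card := by omega
    obtain ⟨G, hG1, hG2⟩ := exists_subset_card_eq h11
    refine ⟨G, hG1.trans inter_subset_left, hG2, ?_⟩
    refine hG0i.subset ?_
    rw [coe_subset]
    exact union_subset hG0Q (hG1.trans inter_subset_right)
  choose G hGF hGcard hGi using hG
  obtain ⟨GG, hGG⟩ : ∃ GG : Finset E, GG = univ.biUnion G := ⟨_, rfl⟩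
  have hGGm : ∀ e, e ∈ GG ↔ ∃ l, e ∈ G l := by
    intro e
    rw [hGG]
    simp
  have hGGF : GG ⊆ FF := by
    intro e he
    obtain ⟨l, hl⟩ := (hGGm e).1 he
    exact (hFFm e).2 ⟨l, hGF l hl⟩
  have hGGcard : GG.card = Z.card := by
    rw [hGG, card_biUnion (fun l _ m _ h => (hFdisj l m h).mono (hGF l) (hGF m))]
    have h1 : Z = univ.biUnion (fun l => Z ∩ Y l) := by
      ext e
      rw [mem_biUnion]
      constructor
      · intro he
        obtain ⟨l, hl⟩ := (hYYm e).1 (hZY he)
        exact ⟨l, mem_univ l, mem_inter.2 ⟨he, hl⟩⟩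
      · rintro ⟨l, -, hl⟩
        exact (mem_inter.1 hl).1
    conv_rhs => rw [h1]
    rw [card_biUnion (fun l _ m _ h => (hYdisj l m h).mono inter_subset_right inter_subset_right)]
    exact sum_congr rfl fun l _ => hGcard l
  apply hno
  refine ⟨X ∪ GG, ?_, ?_, B' ∪ (YY \ Z) ∪ GG, ?_, ?_, ?_⟩
  · intro e he
    rcases mem_union.1 he with h | h
    · exact mem_sdiff.2 ⟨(hXS e h).1, hXB e h⟩
    · exact hFFS (hGGF h)
  · refine (card_union_le _ _).trans ?_
    rw [hGGcard]
    have h1 : 2 * k * X.card ≤ 2 * k * s := Nat.mul_le_mul_left _ hXs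
    have h2 : (2 * k + 1) * s = 2 * k * s + s := by ring
    omega
  · intro e he
    rcases mem_union.1 he with h | h
    · rcases mem_union.1 h with h | h
      · rcases hB'm e h with h | h
        · exact mem_union_left _ h.1
        · exact mem_union_right _ (mem_union_left _ h)
      · exact mem_union_left _ (hYYB (mem_sdiff.1 h).1)
    · exact mem_union_right _ (mem_union_right _ h)
  · intro l
    refine (hGi l).subset ?_
    rw [coe_subset]
    intro e he
    rcases mem_union.1 he with h | h
    · exact mem_union_left _ (mem_union_left _ h)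
    · obtain ⟨m, hm⟩ := (hGGm e).1 h
      by_cases hlm : m = l
      · subst hlm
        exact mem_union_right _ hm
      · refine mem_union_left _ (mem_union_right _ (mem_sdiff.2 ⟨hGGF h, fun h' => ?_⟩))
        exact (disjoint_left.1 (hFdisj m l hlm)) (hGF m hm) h'
  · have h1 : (B' ∪ (YY \ Z) ∪ GG).card = B'.card + (YY \ Z).card + GG.card := by
      rw [card_union_of_disjoint, card_union_of_disjoint]
      · exact hB'Y.mono_right sdiff_subset
      · rw [disjoint_union_left]
        exact ⟨hB'F.mono_right hGGF, (hYF.mono_left sdiff_subset).mono_right hGGF⟩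
    have h6 : (YY \ Z).card + Z.card = YY.card := by
      have := card_sdiff_add_card_inter YY Z
      rwa [inter_eq_right.2 hZY] at this
    omega

omit [Fintype E] in
/-- the start of the recursion -/
theorem base {k : ℕ} (hk : 1 ≤ k) (M : Fin k → Matroid E) (B S : Finset E)
    (hB : CI M B) (hS : CI M S) (hlt : (k : ℝ) * B.card < S.card) : Imp M 1 B S := by
  classical
  by_contra hno
  have hK := fun l => ext_in (M l) (hB l) (subset_union_left : B ⊆ B ∪ S) (hS l)
    (subset_union_right : S ⊆ B ∪ S)
  choose K hBK hKA hKi hKS hKmax using hK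
  have hone : ∀ e ∈ S \ B, ∃ l, e ∉ K l := by
    intro e he
    by_contra hcon
    push Not at hcon
    apply hno
    refine ⟨{e}, singleton_subset_iff.2 he, by simp, insert e B, ?_, ?_, ?_⟩
    · intro x hx
      rw [mem_insert] at hx
      rw [mem_union, mem_singleton]
      tauto
    · intro l
      exact (hKi l).subset (by
        rw [coe_subset]
        exact insert_subset (hcon l) (hBK l))
    · rw [card_insert_of_notMem (mem_sdiff.1 he).2]
      omega
  have h1 : ∀ l, ((S \ B) \ K l).card ≤ (B \ S).card := by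
    intro l
    have h2 := card_sdiff_add_card_inter (S \ B) (K l)
    have h3 : (K l).card = B.card + ((S \ B) ∩ K l).card := by
      have h4 : K l = B ∪ ((S \ B) ∩ K l) := by
        ext e
        rw [mem_union, mem_inter, mem_sdiff]
        constructor
        · intro he
          by_cases heB : e ∈ B
          · exact Or.inl heB
          · rcases mem_union.1 (hKA l he) with h | h
            · exact Or.inl h
            · exact Or.inr ⟨⟨h, heB⟩, he⟩
        · rintro (he | he)
          · exact hBK l he
          · exact he.2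
      have h5 : Disjoint B ((S \ B) ∩ K l) := by
        rw [disjoint_left]
        intro e he he'
        exact (mem_sdiff.1 (mem_inter.1 he').1).2 he
      have h6 := congrArg Finset.card h4
      rw [card_union_of_disjoint h5] at h6
      exact h6
    have h7 := hKS l
    have h8 := card_sdiff_add_card_inter S B
    have h9 := card_sdiff_add_card_inter B S
    rw [inter_comm] at h9
    omega
  have h2 : S \ B ⊆ univ.biUnion (fun l => (S \ B) \ K l) := by
    intro e he
    obtain ⟨l, hl⟩ := hone e he
    rw [mem_biUnion]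
    exact ⟨l, mem_univ l, mem_sdiff.2 ⟨he, hl⟩⟩
  have h3 : (S \ B).card ≤ k * (B \ S).card := by
    refine (card_le_card h2).trans (card_biUnion_le.trans ?_)
    calc ∑ l : Fin k, ((S \ B) \ K l).card ≤ ∑ _l : Fin k, (B \ S).card :=
          sum_le_sum fun l _ => h1 l
      _ = k * (B \ S).card := by rw [sum_const, card_univ, Fintype.card_fin, smul_eq_mul]
  have h4 := card_sdiff_add_card_inter S B
  have h5 := card_sdiff_add_card_inter B S
  rw [inter_comm] at h5
  have h6 : (S ∩ B).card ≤ k * (S ∩ B).card := Nat.le_mul_of_pos_left _ hk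
  have h7 : S.card ≤ k * B.card := by
    calc S.card = (S \ B).card + (S ∩ B).card := h4.symm
      _ ≤ k * (B \ S).card + k * (S ∩ B).card := Nat.add_le_add h3 h6
      _ = k * B.card := by rw [← h5, Nat.mul_add]
  have h8 : (S.card : ℝ) ≤ (k : ℝ) * B.card := by exact_mod_cast h7
  linarith

/-- the recursion -/
theorem iter {k : ℕ} (hk : 2 ≤ k) (j : ℕ) : ∃ (β : ℝ) (s : ℕ), (k : ℝ) / 2 ≤ β ∧
    β ≤ (k : ℝ) / 2 + (k : ℝ) / (2 * (j + 1)) ∧ 1 ≤ s ∧
    ∀ (E : Type) [DecidableEq E] (M : Fin k → Matroid E) (B S : Finset E), CI M B → CI M S →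
      β * B.card < S.card → Imp M s B S := by
  have hkR : (2 : ℝ) ≤ k := by exact_mod_cast hk
  induction j with
  | zero =>
    refine ⟨k, 1, by linarith, ?_, le_rfl, ?_⟩
    · push_cast
      linarith
    · intro E _ M B S hB hS hlt
      exact base (by omega) M B S hB hS hlt
  | succ j ih =>
    obtain ⟨β, s, h1, h2, h3, h4⟩ := ih
    have hβ1 : 1 ≤ β := by linarith
    have hden : 0 < 2 * β - 1 := by linarith
    refine ⟨((k + 1) * β - k) / (2 * β - 1), (2 * k + 1) * s + 2, ?_, ?_, by omega, ?_⟩
    · rw [le_div_iff₀ hden]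
      nlinarith
    · rw [div_le_iff₀ hden]
      have hj : (0 : ℝ) ≤ j := Nat.cast_nonneg j
      obtain ⟨u, hu⟩ : ∃ u : ℝ, u = β - (k : ℝ) / 2 := ⟨_, rfl⟩
      have hβ : β = u + (k : ℝ) / 2 := by rw [hu]; ring
      have hu0 : 0 ≤ u := by rw [hu]; linarith
      have hu1 : u ≤ (k : ℝ) / (2 * (j + 1)) := by rw [hu]; linarith
      rw [le_div_iff₀ (by positivity)] at hu1
      push_cast
      rw [hβ]
      have h5 : (0 : ℝ) < 2 * (j + 1 + 1) := by positivity
      have h6 : (k : ℝ) / (2 * (j + 1 + 1)) * (2 * (j + 1 + 1)) = k := by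
        field_simp
      obtain ⟨c, hc⟩ : ∃ c : ℝ, c = (k : ℝ) / (2 * (j + 1 + 1)) := ⟨_, rfl⟩
      rw [← hc] at h6 ⊢
      have hc0 : 0 ≤ c := by rw [hc]; positivity
      -- `u ≤ c (2 u + k - 1)`
      have h7 : u ≤ c * (2 * u + k - 1) := by
        have h8 : u * (2 * (j + 1 + 1)) ≤ c * (2 * u + k - 1) * (2 * (j + 1 + 1)) := by
          have h9 : c * (2 * u + k - 1) * (2 * (j + 1 + 1)) = k * (2 * u + k - 1) := by
            rw [← h6]
            ring
          rw [h9]
          nlinarith
        exact le_of_mul_le_mul_right h8 h5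
      nlinarith
    · intro E _ M B S hB hS hlt
      exact step hk hβ1 (h4 E) M B S hB hS hlt

/-- **Local search.** -/
theorem local_search {k : ℕ} (hk : 2 ≤ k) {d : ℝ} (hd : 0 < d) : ∃ s : ℕ, 1 ≤ s ∧
    ∀ {E : Type} [Fintype E] [DecidableEq E] (M : Fin k → Matroid E) {B S : Finset E}
      (_ : ∀ i, (M i).Indep (B : Set E)) (_ : ∀ i, (M i).Indep (S : Set E))
      (_ : ((k : ℝ) / 2 + d) * B.card < S.card),
      ∃ X : Finset E, X ⊆ S \ B ∧ X.card ≤ s ∧ ∃ B' : Finset E, B' ⊆ B ∪ X ∧
        (∀ i, (M i).Indep (B' : Set E)) ∧ B.card < B'.card := by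
  have hkR : (2 : ℝ) ≤ k := by exact_mod_cast hk
  obtain ⟨j, hj⟩ := exists_nat_gt ((k : ℝ) / (2 * d))
  obtain ⟨β, s, h1, h2, h3, h4⟩ := iter hk j
  refine ⟨s, h3, ?_⟩
  intro E _ _ M B S hB hS hlt
  have h5 : (k : ℝ) / (2 * (j + 1)) ≤ d := by
    rw [div_lt_iff₀ (by positivity)] at hj
    rw [div_le_iff₀ (by positivity)]
    nlinarith
  have h6 : β * B.card < S.card := by
    refine lt_of_le_of_lt ?_ hlt
    exact mul_le_mul_of_nonneg_right (by linarith) (Nat.cast_nonneg _)
  obtain ⟨X, hX, hXs, B', hB', hC, hcard⟩ := h4 E M B S hB hS h6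
  exact ⟨X, hX, hXs, B', hB', hC, hcard⟩

end Pool.Agent.Helper55.LS
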